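import Pool.Agent.Lib.MP_7f565b_co.Defs

/-!
Bounds on `gamma` and `ir`, and Boolean versions of the definitions.
-/

namespace Pool.Agent.Lib.MP_7f565b_co

variable {V : Type} [Fintype V] [DecidableEq V]

omit [Fintype V] [DecidableEq V] in
theorem gamma_le {G : SimpleGraph V} {S : Finset V} (h : IsDominating G S) : gamma G ≤ S.card :=
  Nat.sInf_le ⟨S, h, rfl⟩

omit [DecidableEq V] in
theorem le_gamma {G : SimpleGraph V} {k : ℕ} (h : ∀ S, IsDominating G S → k ≤ S.card) :
    k ≤ gamma G := by
  have hne : {k | ∃ S : Finset V, IsDominating G S ∧ S.card = k}.Nonempty :=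
    ⟨_, Finset.univ, fun v => ⟨v, Finset.mem_univ _, Or.inl rfl⟩, rfl⟩
  obtain ⟨S, hS, hk⟩ := Nat.sInf_mem hne
  unfold gamma
  rw [← hk]
  exact h S hS

omit [Fintype V] [DecidableEq V] in
theorem IsIrredundant.subset {G : SimpleGraph V} {S T : Finset V} (h : IsIrredundant G T)
    (hST : S ⊆ T) : IsIrredundant G S := fun s hs => by
  obtain ⟨v, hv, hv'⟩ := h s (hST hs)
  exact ⟨v, hv, fun t ht => hv' t (hST ht)⟩

omit [Fintype V] in
theorem ir_le {G : SimpleGraph V} {S : Finset V} (h : IsIrredundant G S)
    (h' : ∀ v, v ∉ S → ¬ IsIrredundant G (insert v S)) : ir G ≤ S.card := by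
  refine Nat.sInf_le ⟨S, ⟨h, fun T hT hST v hv => ?_⟩, rfl⟩
  by_contra hvS
  exact h' v hvS (hT.subset (Finset.insert_subset hv hST))

theorem le_ir {G : SimpleGraph V} {k : ℕ}
    (h : ∀ S, S.card < k → IsIrredundant G S → ∃ v, v ∉ S ∧ IsIrredundant G (insert v S)) :
    k ≤ ir G := by
  have hne : {k | ∃ S : Finset V, Maximal (IsIrredundant G) S ∧ S.card = k}.Nonempty := by
    obtain ⟨S, -, hS⟩ := Finite.exists_le_maximal (p := IsIrredundant G) (a := ∅)
      (fun s hs => absurd hs (Finset.notMem_empty s))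
    exact ⟨_, S, hS, rfl⟩
  obtain ⟨S, hS, hk⟩ := Nat.sInf_mem hne
  unfold ir
  rw [← hk]
  by_contra hlt
  obtain ⟨v, hv, hv'⟩ := h S (not_le.1 hlt) hS.1
  exact hv (hS.2 hv' (Finset.subset_insert v S) (Finset.mem_insert_self v S))

/-- The graph on `Fin n` whose closed neighbourhoods are read from the bits of `M`. -/
def bitGraph (n M : ℕ) : SimpleGraph (Fin n) :=
  SimpleGraph.fromRel fun a b => M.testBit (n * a + b) = true

/-- Boolean closed neighbourhoods in `bitGraph n M`. -/
def nb (n M : ℕ) (a b : Fin n) : Bool :=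
  decide (b = a) || M.testBit (n * a + b) || M.testBit (n * b + a)

/-- Boolean closed neighbourhoods in `bitGraph n M` plus the edge `u v`. -/
def nb' (n M : ℕ) (u v : Fin n) (a b : Fin n) : Bool :=
  nb n M a b || (decide (a = u) && decide (b = v)) || (decide (a = v) && decide (b = u))

theorem mem_nb (n M : ℕ) (a b : Fin n) : b ∈ closedNbhd (bitGraph n M) a ↔ nb n M a b = true := by
  simp only [closedNbhd, bitGraph, nb, Set.mem_ofPred_eq, SimpleGraph.fromRel_adj, Bool.or_eq_true,
    decide_eq_true_eq]
  by_cases h : b = a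
  · simp [h]
  · simp [h, Ne.symm h]

theorem mem_nb' (n M : ℕ) (u v a b : Fin n) :
    b ∈ closedNbhd (bitGraph n M ⊔ SimpleGraph.edge u v) a ↔ nb' n M u v a b = true := by
  have := mem_nb n M a b
  simp only [closedNbhd, Set.mem_ofPred_eq] at this
  simp only [closedNbhd, nb', Set.mem_ofPred_eq, SimpleGraph.sup_adj, SimpleGraph.edge_adj,
    Bool.or_eq_true, Bool.and_eq_true, decide_eq_true_eq, ← this]
  by_cases h : b = a
  · simp [h]
  · simp only [h, false_or, ne_eq, Ne.symm h, not_false_eq_true, and_true, or_assoc]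

/-- Boolean domination test for a list. -/
def domB {n : ℕ} (A : Fin n → Fin n → Bool) (L : List (Fin n)) : Bool :=
  (List.finRange n).all fun v => L.any fun s => A s v

/-- Boolean irredundance test for a list. -/
def irrB {n : ℕ} (A : Fin n → Fin n → Bool) (L : List (Fin n)) : Bool :=
  L.all fun s => (List.finRange n).any fun v => A s v && L.all fun t => decide (t = s) || !A t v

theorem domB_iff {n : ℕ} {G : SimpleGraph (Fin n)} {A : Fin n → Fin n → Bool}
    (hA : ∀ a b, b ∈ closedNbhd G a ↔ A a b = true) (L : List (Fin n)) :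
    domB A L = true ↔ IsDominating G L.toFinset := by
  simp [domB, IsDominating, hA]

theorem irrB_iff {n : ℕ} {G : SimpleGraph (Fin n)} {A : Fin n → Fin n → Bool}
    (hA : ∀ a b, b ∈ closedNbhd G a ↔ A a b = true) (L : List (Fin n)) :
    irrB A L = true ↔ IsIrredundant G L.toFinset := by
  simp only [irrB, IsIrredundant, hA, List.all_eq_true, List.any_eq_true, List.mem_finRange,
    true_and, Bool.and_eq_true, Bool.or_eq_true, decide_eq_true_eq, Bool.not_eq_true',
    List.mem_toFinset, ne_eq, Bool.not_eq_true, or_iff_not_imp_left]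

/-- Every finset is the set of entries of a sublist of `finRange n` of the same length. -/
theorem exists_sublist {n : ℕ} (S : Finset (Fin n)) :
    ∃ L ∈ (List.finRange n).sublistsLen S.card, L.toFinset = S := by
  refine ⟨(List.finRange n).filter (· ∈ S), ?_, ?_⟩
  · rw [List.mem_sublistsLen]
    refine ⟨List.filter_sublist, ?_⟩
    rw [← List.toFinset_card_of_nodup ((List.nodup_finRange n).filter _)]
    congr 1
    ext x
    simp
  · ext x
    simp

/-- No dominating set has fewer than `k` vertices. -/
def gammaGe {n : ℕ} (A : Fin n → Fin n → Bool) (k : ℕ) : Bool :=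
  (List.range k).all fun j => ((List.finRange n).sublistsLen j).all fun L => !domB A L

/-- Some `k` vertices dominate. -/
def gammaLe {n : ℕ} (A : Fin n → Fin n → Bool) (k : ℕ) : Bool :=
  ((List.finRange n).sublistsLen k).any fun L => domB A L

/-- The list is a maximal irredundant set. -/
def maxIrrB {n : ℕ} (A : Fin n → Fin n → Bool) (L : List (Fin n)) : Bool :=
  irrB A L && (List.finRange n).all fun v => decide (v ∈ L) || !irrB A (v :: L)

/-- No maximal irredundant set has fewer than `k` vertices. -/
def irGe {n : ℕ} (A : Fin n → Fin n → Bool) (k : ℕ) : Bool :=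
  (List.range k).all fun j => ((List.finRange n).sublistsLen j).all fun L => !maxIrrB A L

/-- Some `k` vertices form a maximal irredundant set. -/
def irLe {n : ℕ} (A : Fin n → Fin n → Bool) (k : ℕ) : Bool :=
  ((List.finRange n).sublistsLen k).any fun L => maxIrrB A L

section

variable {n : ℕ} {G : SimpleGraph (Fin n)} {A : Fin n → Fin n → Bool}
  (hA : ∀ a b, b ∈ closedNbhd G a ↔ A a b = true) {k : ℕ}

include hA

theorem le_gamma_of (h : gammaGe A k = true) : k ≤ gamma G := by
  refine le_gamma fun S hS => ?_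
  by_contra hlt
  obtain ⟨L, hL, rfl⟩ := exists_sublist S
  simp only [gammaGe, List.all_eq_true, List.mem_range] at h
  have := h _ (not_le.1 hlt) L hL
  rw [(domB_iff hA L).2 hS] at this
  exact absurd this (by decide)

theorem gamma_le_of (h : gammaLe A k = true) : gamma G ≤ k := by
  simp only [gammaLe, List.any_eq_true] at h
  obtain ⟨L, hL, h⟩ := h
  refine (gamma_le ((domB_iff hA L).1 h)).trans ?_
  rw [← (List.mem_sublistsLen.1 hL).2]
  exact List.toFinset_card_le L

theorem le_ir_of (h : irGe A k = true) : k ≤ ir G := by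
  refine le_ir fun S hlt hS => ?_
  obtain ⟨L, hL, rfl⟩ := exists_sublist S
  simp only [irGe, List.all_eq_true, List.mem_range] at h
  have := h _ hlt L hL
  simp only [maxIrrB, (irrB_iff hA L).2 hS, Bool.true_and, Bool.not_eq_true', List.all_eq_false,
    List.mem_finRange, true_and, Bool.or_eq_true, decide_eq_true_eq, not_or,
    Bool.not_eq_false] at this
  obtain ⟨v, hv, hv'⟩ := this
  refine ⟨v, by simpa using hv, ?_⟩
  rw [← List.toFinset_cons]
  exact (irrB_iff hA _).1 hv'

theorem ir_le_of (h : irLe A k = true) : ir G ≤ k := by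
  simp only [irLe, List.any_eq_true, maxIrrB, Bool.and_eq_true, List.all_eq_true,
    List.mem_finRange, Bool.or_eq_true, decide_eq_true_eq, Bool.not_eq_true', true_imp_iff] at h
  obtain ⟨L, hL, h1, h2⟩ := h
  refine (ir_le ((irrB_iff hA L).1 h1) fun v hv hv' => ?_).trans ?_
  · rw [← List.toFinset_cons, ← irrB_iff hA] at hv'
    rcases h2 v with h3 | h3
    · exact hv (List.mem_toFinset.2 h3)
    · rw [h3] at hv'
      exact absurd hv' (by decide)
  · rw [← (List.mem_sublistsLen.1 hL).2]
    exact List.toFinset_card_le L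

end

theorem nb_false {n M : ℕ} {u v : Fin n} (h : u ≠ v) (h' : ¬ (bitGraph n M).Adj u v) :
    nb n M u v = false := by
  rw [← Bool.not_eq_true, ← mem_nb]
  rintro (h1 | h1)
  · exact h h1.symm
  · exact h' h1

theorem not_adj_of_nb {n M : ℕ} {u v : Fin n} (h : nb n M u v = false) :
    ¬ (bitGraph n M).Adj u v := fun h' => by
  have := (mem_nb n M u v).1 (Or.inr h')
  rw [h] at this
  exact absurd this (by decide)

end Pool.Agent.Lib.MP_7f565b_co
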