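import Mathlib

/-!
Definitions for MP_7f565b_co: domination number, lower irredundance number, edge-criticality.
-/

namespace Pool.Agent.Lib.MP_7f565b_co

variable {V : Type}

/-- The closed neighbourhood `N[s]`. -/
def closedNbhd (G : SimpleGraph V) (s : V) : Set V := {v | v = s ∨ G.Adj s v}

/-- `S` is dominating: every vertex lies in `N[s]` for some `s ∈ S`. -/
def IsDominating (G : SimpleGraph V) (S : Finset V) : Prop :=
  ∀ v, ∃ s ∈ S, v ∈ closedNbhd G s

/-- `S` is irredundant: every `s ∈ S` has a private neighbour, a vertex of `N[s]` that lies in no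
`N[t]` with `t ∈ S`, `t ≠ s`. -/
def IsIrredundant (G : SimpleGraph V) (S : Finset V) : Prop :=
  ∀ s ∈ S, ∃ v ∈ closedNbhd G s, ∀ t ∈ S, t ≠ s → v ∉ closedNbhd G t

/-- The domination number: the least size of a dominating set. -/
noncomputable def gamma (G : SimpleGraph V) : ℕ :=
  sInf {k | ∃ S : Finset V, IsDominating G S ∧ S.card = k}

/-- The lower irredundance number: the least size of an inclusion-maximal irredundant set. -/
noncomputable def ir (G : SimpleGraph V) : ℕ :=
  sInf {k | ∃ S : Finset V, Maximal (IsIrredundant G) S ∧ S.card = k}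

/-- `G` is `π`-edge-critical: adding any missing edge strictly lowers `π`. -/
def IsEdgeCritical (π : SimpleGraph V → ℕ) (G : SimpleGraph V) : Prop :=
  ∀ u v, u ≠ v → ¬ G.Adj u v → π (G ⊔ SimpleGraph.edge u v) < π G

end Pool.Agent.Lib.MP_7f565b_co
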